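import Pool.Agent.H90.STK.All
import Pool.Agent.H90.STK.Stmts2

/-!
# Families without stickiness

The entropy theorem for sticky families implies the theorem on local direction entropies for all
families. Among all laws with given conditional laws of the local directions a convex functional is
largest at a law for which each coarse line together with the finer direction determines the finer
line; such a law is sticky.
-/

set_option autoImplicit false

namespace Pool.STK

open Finset Real MeasureTheory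
open Pool.Agent.H49.Ent Pool.Agent.H32.Dense

namespace EP

section Abstract

variable {Ω S T V : Type*} [Fintype Ω]

/-- Scaling by a weight which is constant on the class of `ω`. -/
lemma law_scale {p s : Ω → ℝ} {W : Ω → T} {ω : Ω} (h : ∀ ω', W ω' = W ω → s ω' = s ω) :
    law (fun ω => s ω * p ω) W (W ω) = s ω * law p W (W ω) := by
  classical
  unfold law
  rw [Finset.mul_sum]
  refine Finset.sum_congr rfl fun ω' _ => ?_
  beta_reduce
  by_cases e : W ω' = W ω
  · rw [if_pos e, if_pos e, h ω' e]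
  · rw [if_neg e, if_neg e, mul_zero]

/-- Conditional entropy after scaling by a weight which is a function of the condition. -/
lemma CH_scale {p s : Ω → ℝ} (hp : ∀ ω, 0 ≤ p ω) (hs : ∀ ω, 0 ≤ s ω) (X : Ω → S) {W : Ω → T}
    (h : ∀ ω ω', W ω' = W ω → s ω' = s ω) :
    CH (fun ω => s ω * p ω) X W = Ex (fun ω => s ω * p ω)
      (fun ω => -Real.log (law p (fun ω => (X ω, W ω)) (X ω, W ω) / law p W (W ω))) := by
  rw [CH_eq_neg_sum (fun ω => mul_nonneg (hs ω) (hp ω))]
  unfold Ex
  refine Finset.sum_congr rfl fun ω _ => ?_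
  beta_reduce
  rcases (hs ω).eq_or_lt with h0 | h0
  · rw [← h0]
    simp
  · have e1 : law (fun ω => s ω * p ω) W (W ω) = s ω * law p W (W ω) := law_scale (h ω)
    have e2 : law (fun ω => s ω * p ω) (fun ω => (X ω, W ω)) (X ω, W ω) =
        s ω * law p (fun ω => (X ω, W ω)) (X ω, W ω) :=
      law_scale (W := fun ω => (X ω, W ω)) fun ω' e => h ω ω' (Prod.ext_iff.mp e).2
    rw [e1, e2, mul_div_mul_left _ _ h0.ne']

/-- Linearity of the conditional entropy along weights which are functions of the condition. -/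
lemma CH_linear {p s₁ s₂ : Ω → ℝ} (hp : ∀ ω, 0 ≤ p ω) (h₁ : ∀ ω, 0 ≤ s₁ ω) (h₂ : ∀ ω, 0 ≤ s₂ ω)
    (X : Ω → S) {W : Ω → T} (g₁ : ∀ ω ω', W ω' = W ω → s₁ ω' = s₁ ω)
    (g₂ : ∀ ω ω', W ω' = W ω → s₂ ω' = s₂ ω) {a b : ℝ}
    (h : ∀ ω, a * s₁ ω + b * s₂ ω = 1) :
    a * CH (fun ω => s₁ ω * p ω) X W + b * CH (fun ω => s₂ ω * p ω) X W = CH p X W := by
  rw [CH_scale hp h₁ X g₁, CH_scale hp h₂ X g₂, CH_eq_neg_sum hp]
  unfold Ex
  rw [Finset.mul_sum, Finset.mul_sum, ← Finset.sum_add_distrib]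
  refine Finset.sum_congr rfl fun ω _ => ?_
  beta_reduce
  have := h ω
  calc _ = (a * s₁ ω + b * s₂ ω) * (p ω *
      -Real.log (law p (fun ω => (X ω, W ω)) (X ω, W ω) / law p W (W ω))) := by ring
    _ = _ := by rw [this, one_mul]

/-- The entropy depends on the law only. -/
lemma H_of_law {p q : Ω → ℝ} {X : Ω → S} (h : ∀ x, law q X x = law p X x) : H q X = H p X := by
  classical
  rw [H_eq_sum_image, H_eq_sum_image]
  exact Finset.sum_congr rfl fun x _ => by rw [h x]

/-- The law of a function of `A` depends on the law of `A` only. -/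
lemma law_of_law {p q : Ω → ℝ} {A : Ω → S} {Y : Ω → T} (h : ∀ x, law q A x = law p A x)
    (hY : ∀ ω ω', A ω = A ω' → Y ω = Y ω') (y : T) : law q Y y = law p Y y := by
  classical
  have key : ∀ r : Ω → ℝ, law r Y y = ∑ x ∈ (univ.filter (fun ω => Y ω = y)).image A, law r A x := by
    intro r
    unfold law
    rw [Finset.sum_comm]
    refine Finset.sum_congr rfl fun ω _ => ?_
    by_cases e : Y ω = y
    · rw [if_pos e, Finset.sum_eq_single (A ω)]
      · simp
      · intro x _ hx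
        rw [if_neg (Ne.symm hx)]
      · intro hx
        exact absurd (Finset.mem_image_of_mem A (Finset.mem_filter.mpr ⟨Finset.mem_univ ω, e⟩)) hx
    · rw [if_neg e]
      symm
      refine Finset.sum_eq_zero fun x hx => ?_
      obtain ⟨ω', h1, h2⟩ := Finset.mem_image.mp hx
      rw [if_neg]
      intro e2
      exact e ((hY ω ω' (e2.trans h2.symm)).trans (Finset.mem_filter.mp h1).2)
  rw [key, key]
  exact Finset.sum_congr rfl fun x _ => h x

/-- Moving the mass of the value `v` of `B` to the value `u`. -/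
noncomputable def wt (p : Ω → ℝ) (B : Ω → T) (u v : T) (ω : Ω) : ℝ := by
  classical
  exact if B ω = u then (law p B u + law p B v) / law p B u else if B ω = v then 0 else 1

lemma wt_nonneg {p : Ω → ℝ} (hp : ∀ ω, 0 ≤ p ω) (B : Ω → T) (u v : T) (ω : Ω) :
    0 ≤ wt p B u v ω := by
  unfold wt
  split_ifs
  · exact div_nonneg (add_nonneg (law_nonneg hp B u) (law_nonneg hp B v)) (law_nonneg hp B u)
  · exact le_rfl
  · exact zero_le_one

lemma wt_congr {p : Ω → ℝ} {B : Ω → T} {u v : T} {ω ω' : Ω} (h : B ω' = B ω) :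
    wt p B u v ω' = wt p B u v ω := by
  unfold wt
  rw [h]

/-- The two moves average to the identity. -/
lemma wt_avg {p : Ω → ℝ} {B : Ω → T} {u v : T} (hu : 0 < law p B u) (hv : 0 < law p B v)
    (huv : u ≠ v) (ω : Ω) :
    law p B u / (law p B u + law p B v) * wt p B u v ω +
      law p B v / (law p B u + law p B v) * wt p B v u ω = 1 := by
  unfold wt
  have hs : law p B u + law p B v ≠ 0 := (add_pos hu hv).ne'
  have hs' : law p B v + law p B u ≠ 0 := (add_pos hv hu).ne'
  by_cases h1 : B ω = u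
  · have h2 : ¬ B ω = v := fun h => huv (h1.symm.trans h)
    rw [if_pos h1, if_neg h2, if_pos h1]
    field_simp
    ring
  · by_cases h2 : B ω = v
    · rw [if_neg h1, if_pos h2, if_pos h2]
      field_simp
      ring
    · rw [if_neg h1, if_neg h2, if_neg h2, if_neg h1]
      field_simp

/-- The move does not change the law of a variable which takes the same value on both classes. -/
lemma law_wt {p : Ω → ℝ} {B : Ω → T} {u v : T} (hu : 0 < law p B u) (huv : u ≠ v) {A : Ω → S}
    {c : S} (hA : ∀ ω, B ω = u ∨ B ω = v → A ω = c) (x : S) :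
    law (fun ω => wt p B u v ω * p ω) A x = law p A x := by
  classical
  have key : ∀ ω, (if A ω = x then wt p B u v ω * p ω else 0) =
      (if A ω = x then p ω else 0) + (if c = x then
        law p B v / law p B u * (if B ω = u then p ω else 0) - (if B ω = v then p ω else 0)
        else 0) := by
    intro ω
    unfold wt
    by_cases h1 : B ω = u
    · have h2 : ¬ B ω = v := fun h => huv (h1.symm.trans h)
      rw [hA ω (Or.inl h1), if_pos h1, if_pos h1, if_neg h2]
      by_cases hc : c = x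
      · rw [if_pos hc, if_pos hc, if_pos hc]
        field_simp
        ring
      · rw [if_neg hc, if_neg hc, if_neg hc, add_zero]
    · by_cases h2 : B ω = v
      · rw [hA ω (Or.inr h2), if_neg h1, if_pos h2, if_neg h1, if_pos h2]
        by_cases hc : c = x
        · rw [if_pos hc, if_pos hc, if_pos hc]
          ring
        · rw [if_neg hc, if_neg hc, if_neg hc, add_zero]
      · rw [if_neg h1, if_neg h2, if_neg h1, if_neg h2]
        simp
  unfold law at hu ⊢
  rw [Finset.sum_congr rfl fun ω _ => key ω, Finset.sum_add_distrib]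
  by_cases hc : c = x
  · simp only [hc, if_true]
    rw [Finset.sum_sub_distrib, ← Finset.mul_sum]
    unfold law
    field_simp
    ring
  · simp [hc]

/-- Conditional entropy is concave in the law as long as the law of the condition is fixed. -/
lemma CH_concave {p q₁ q₂ : Ω → ℝ} (h₁ : ∀ ω, 0 ≤ q₁ ω) (h₂ : ∀ ω, 0 ≤ q₂ ω) {a b : ℝ}
    (ha : 0 ≤ a) (hb : 0 ≤ b) (hab : a + b = 1) (hq : ∀ ω, a * q₁ ω + b * q₂ ω = p ω)
    (X : Ω → S) (Z : Ω → T) (g₁ : ∀ z, law q₁ Z z = law p Z z)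
    (g₂ : ∀ z, law q₂ Z z = law p Z z) :
    a * CH q₁ X Z + b * CH q₂ X Z ≤ CH p X Z := by
  have h := H_concave h₁ h₂ ha hb hab (fun ω => (X ω, Z ω))
  have hp : (fun ω => a * q₁ ω + b * q₂ ω) = p := funext hq
  rw [hp] at h
  have e : a * H p Z + b * H p Z = H p Z := by rw [← add_mul, hab, one_mul]
  unfold CH
  rw [H_of_law g₁, H_of_law g₂, mul_sub, mul_sub]
  linarith

end Abstract

section Lines

variable {Ω ζ : Type} [Fintype Ω] {m : ℕ}

/-- The coarse line, the finer direction and the side information. -/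
noncomputable def AA (u d : Ω → Fin m → ℝ) (Z : Ω → ζ) (K r : ℕ) (ω : Ω) :
    (((Fin m → ℤ) × (Fin m → ℤ)) × (Fin m → ℤ)) × ζ :=
  ((Ln u d (r * K) ω, Fl d ((r + 1) * K) ω), Z ω)

/-- The functional. -/
noncomputable def Phi (a : ℝ) (p : Ω → ℝ) (u d : Ω → Fin m → ℝ) (Z : Ω → ζ) (K M J : ℕ) : ℝ :=
  ∑ r ∈ Finset.range M, CH p (Fl d ((r + 1) * K)) (bb u d Z K r) - a * Xav p u d Z J

omit [Fintype Ω] in
lemma Ln_nested (u d : Ω → Fin m → ℝ) {i j : ℕ} (h : i ≤ j) {ω ω' : Ω}
    (e : Ln u d j ω = Ln u d j ω') : Ln u d i ω = Ln u d i ω' := by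
  unfold Ln Fl at e ⊢
  simp only [Prod.mk.injEq] at e ⊢
  exact ⟨RED.fl_nested h e.1, RED.fl_nested h e.2⟩

omit [Fintype Ω] in
lemma bb_nested (u d : Ω → Fin m → ℝ) (Z : Ω → ζ) (K : ℕ) {i j : ℕ} (h : i ≤ j) {ω ω' : Ω}
    (e : bb u d Z K j ω = bb u d Z K j ω') : bb u d Z K i ω = bb u d Z K i ω' := by
  unfold bb at e ⊢
  simp only [Prod.mk.injEq] at e ⊢
  exact ⟨Ln_nested u d (Nat.mul_le_mul_right K h) e.1, e.2⟩

omit [Fintype Ω] in
lemma AA_of_bb (u d : Ω → Fin m → ℝ) (Z : Ω → ζ) (K r : ℕ) {ω ω' : Ω}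
    (e : bb u d Z K (r + 1) ω = bb u d Z K (r + 1) ω') : AA u d Z K r ω = AA u d Z K r ω' := by
  have h := bb_nested u d Z K (Nat.le_succ r) e
  unfold bb at e h
  unfold AA
  unfold Ln at e
  simp only [Prod.mk.injEq] at e h ⊢
  exact ⟨⟨h.1, e.1.2⟩, e.2⟩

/-- One move. -/
lemma move (hINT : INTStmt) {a : ℝ} (ha : 0 ≤ a) {p : Ω → ℝ} (hp : IsLaw p)
    (u d : Ω → Fin m → ℝ) (Z : Ω → ζ) (K M J r : ℕ) {ω₁ ω₂ : Ω} (h₁ : 0 < p ω₁) (h₂ : 0 < p ω₂)
    (hA : AA u d Z K r ω₁ = AA u d Z K r ω₂)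
    (hB : bb u d Z K (r + 1) ω₁ ≠ bb u d Z K (r + 1) ω₂) :
    ∃ p' : Ω → ℝ, IsLaw p' ∧ (∀ ω, 0 < p' ω → 0 < p ω) ∧ (∃ ω, 0 < p ω ∧ ¬ 0 < p' ω) ∧
      Phi a p u d Z K M J ≤ Phi a p' u d Z K M J := by
  set B := bb u d Z K (r + 1) with hBdef
  -- the situation is symmetric
  have main : ∀ ω₁ ω₂ : Ω, 0 < p ω₁ → 0 < p ω₂ → AA u d Z K r ω₁ = AA u d Z K r ω₂ → B ω₁ ≠ B ω₂ →
      IsLaw (fun ω => wt p B (B ω₁) (B ω₂) ω * p ω) ∧
      (∀ ω, 0 < wt p B (B ω₁) (B ω₂) ω * p ω → 0 < p ω) ∧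
      ¬ 0 < wt p B (B ω₁) (B ω₂) ω₂ * p ω₂ ∧
      (∀ x, law (fun ω => wt p B (B ω₁) (B ω₂) ω * p ω) (AA u d Z K r) x =
        law p (AA u d Z K r) x) := by
    intro ω₁ ω₂ h₁ h₂ hA hB
    have hl : 0 < law p B (B ω₁) := law_pos hp.nonneg B h₁
    refine ⟨⟨fun ω => mul_nonneg (wt_nonneg hp.nonneg B _ _ ω) (hp.nonneg ω), ?_⟩, ?_, ?_, ?_⟩
    · have h := law_wt (A := fun _ : Ω => ()) (c := ()) hl hB (fun _ _ => rfl) ()
      unfold law at h
      simp only [if_true] at h
      rw [h, hp.sum_one]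
    · intro ω h
      rcases (hp.nonneg ω).eq_or_lt with h0 | h0
      · rw [← h0, mul_zero] at h
        exact absurd h (lt_irrefl _)
      · exact h0
    · unfold wt
      rw [if_neg (Ne.symm hB), if_pos rfl, zero_mul]
      exact lt_irrefl _
    · refine law_wt (c := AA u d Z K r ω₁) hl hB ?_
      rintro ω (h | h)
      · exact AA_of_bb u d Z K r h
      · exact (AA_of_bb u d Z K r h).trans hA.symm
  obtain ⟨L1, S1, N1, A1⟩ := main ω₁ ω₂ h₁ h₂ hA hB
  obtain ⟨L2, S2, N2, A2⟩ := main ω₂ ω₁ h₂ h₁ hA.symm (Ne.symm hB)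
  set s₁ := wt p B (B ω₁) (B ω₂) with hs1
  set s₂ := wt p B (B ω₂) (B ω₁) with hs2
  set x := law p B (B ω₁) with hx
  set y := law p B (B ω₂) with hy
  have hx0 : 0 < x := law_pos hp.nonneg B h₁
  have hy0 : 0 < y := law_pos hp.nonneg B h₂
  have hxy : 0 < x + y := add_pos hx0 hy0
  have w1 : 0 ≤ x / (x + y) := (div_pos hx0 hxy).le
  have w2 : 0 ≤ y / (x + y) := (div_pos hy0 hxy).le
  have w12 : x / (x + y) + y / (x + y) = 1 := by field_simp
  have hav : ∀ ω, x / (x + y) * s₁ ω + y / (x + y) * s₂ ω = 1 := fun ω =>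
    wt_avg hx0 hy0 hB ω
  have n1 : ∀ ω, 0 ≤ s₁ ω := wt_nonneg hp.nonneg B _ _
  have n2 : ∀ ω, 0 ≤ s₂ ω := wt_nonneg hp.nonneg B _ _
  have hmix : ∀ ω, x / (x + y) * (s₁ ω * p ω) + y / (x + y) * (s₂ ω * p ω) = p ω := by
    intro ω
    have := hav ω
    calc _ = (x / (x + y) * s₁ ω + y / (x + y) * s₂ ω) * p ω := by ring
      _ = p ω := by rw [this, one_mul]
  -- linearity of the local direction entropies
  have lin : ∀ r' : ℕ, x / (x + y) * CH (fun ω => s₁ ω * p ω) (Fl d ((r' + 1) * K))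
      (bb u d Z K r') + y / (x + y) * CH (fun ω => s₂ ω * p ω) (Fl d ((r' + 1) * K))
      (bb u d Z K r') = CH p (Fl d ((r' + 1) * K)) (bb u d Z K r') := by
    intro r'
    by_cases hr : r' ≤ r
    · have f1 : ∀ ω ω', AA u d Z K r ω = AA u d Z K r ω' →
          bb u d Z K r' ω = bb u d Z K r' ω' := by
        intro ω ω' e
        refine bb_nested u d Z K hr ?_
        unfold AA at e
        unfold bb
        simp only [Prod.mk.injEq] at e ⊢
        exact ⟨e.1.1, e.2⟩
      have f2 : ∀ ω ω', AA u d Z K r ω = AA u d Z K r ω' →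
          (Fl d ((r' + 1) * K) ω, bb u d Z K r' ω) = (Fl d ((r' + 1) * K) ω', bb u d Z K r' ω') := by
        intro ω ω' e
        refine Prod.ext ?_ (f1 ω ω' e)
        unfold AA at e
        simp only [Prod.mk.injEq] at e
        unfold Fl at e ⊢
        exact RED.fl_nested (Nat.mul_le_mul_right K (Nat.succ_le_succ hr)) e.1.2
      have e1 : CH (fun ω => s₁ ω * p ω) (Fl d ((r' + 1) * K)) (bb u d Z K r') =
          CH p (Fl d ((r' + 1) * K)) (bb u d Z K r') := by
        unfold CH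
        rw [H_of_law (law_of_law A1 f1), H_of_law (law_of_law A1 f2)]
      have e2 : CH (fun ω => s₂ ω * p ω) (Fl d ((r' + 1) * K)) (bb u d Z K r') =
          CH p (Fl d ((r' + 1) * K)) (bb u d Z K r') := by
        unfold CH
        rw [H_of_law (law_of_law A2 f1), H_of_law (law_of_law A2 f2)]
      rw [e1, e2, ← add_mul, w12, one_mul]
    · push Not at hr
      exact CH_linear hp.nonneg n1 n2 _
        (fun ω ω' e => wt_congr (bb_nested u d Z K hr e))
        (fun ω ω' e => wt_congr (bb_nested u d Z K hr e)) hav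
  -- concavity of the entropies of the positions
  have lZ : ∀ q : Ω → ℝ, (∀ x, law q (AA u d Z K r) x = law p (AA u d Z K r) x) →
      ∀ z, law q Z z = law p Z z := by
    intro q hq
    refine law_of_law hq fun ω ω' e => ?_
    unfold AA at e
    exact (Prod.ext_iff.mp e).2
  have conc : ∀ t : ℝ, x / (x + y) * CH (fun ω => s₁ ω * p ω) (Xp u d t J) Z +
      y / (x + y) * CH (fun ω => s₂ ω * p ω) (Xp u d t J) Z ≤ CH p (Xp u d t J) Z := fun t =>
    CH_concave L1.nonneg L2.nonneg w1 w2 w12 hmix _ _ (lZ _ A1) (lZ _ A2)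
  have hX : x / (x + y) * Xav (fun ω => s₁ ω * p ω) u d Z J +
      y / (x + y) * Xav (fun ω => s₂ ω * p ω) u d Z J ≤ Xav p u d Z J := by
    unfold Xav
    have i1 := (hINT m Ω ζ (fun ω => s₁ ω * p ω) u d L1).1 Z J 0 1
    have i2 := (hINT m Ω ζ (fun ω => s₂ ω * p ω) u d L2).1 Z J 0 1
    have i0 := (hINT m Ω ζ p u d hp).1 Z J 0 1
    rw [← intervalIntegral.integral_const_mul, ← intervalIntegral.integral_const_mul,
      ← intervalIntegral.integral_add (i1.const_mul _) (i2.const_mul _)]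
    exact intervalIntegral.integral_mono (by norm_num) ((i1.const_mul _).add (i2.const_mul _)) i0
      conc
  have hPhi : Phi a p u d Z K M J ≤ x / (x + y) * Phi a (fun ω => s₁ ω * p ω) u d Z K M J +
      y / (x + y) * Phi a (fun ω => s₂ ω * p ω) u d Z K M J := by
    unfold Phi
    have e : ∑ r' ∈ Finset.range M, CH p (Fl d ((r' + 1) * K)) (bb u d Z K r') =
        x / (x + y) * ∑ r' ∈ Finset.range M,
          CH (fun ω => s₁ ω * p ω) (Fl d ((r' + 1) * K)) (bb u d Z K r') +
        y / (x + y) * ∑ r' ∈ Finset.range M,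
          CH (fun ω => s₂ ω * p ω) (Fl d ((r' + 1) * K)) (bb u d Z K r') := by
      rw [Finset.mul_sum, Finset.mul_sum, ← Finset.sum_add_distrib]
      exact Finset.sum_congr rfl fun r' _ => (lin r').symm
    rw [e]
    have := mul_le_mul_of_nonneg_left hX ha
    nlinarith
  by_cases hc : Phi a p u d Z K M J ≤ Phi a (fun ω => s₁ ω * p ω) u d Z K M J
  · exact ⟨_, L1, S1, ⟨ω₂, h₂, N1⟩, hc⟩
  · refine ⟨_, L2, S2, ⟨ω₁, h₁, N2⟩, ?_⟩
    by_contra hc2
    push Not at hc hc2
    have g1 : x / (x + y) * Phi a (fun ω => s₁ ω * p ω) u d Z K M J <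
        x / (x + y) * Phi a p u d Z K M J := mul_lt_mul_of_pos_left hc (div_pos hx0 hxy)
    have g2 : y / (x + y) * Phi a (fun ω => s₂ ω * p ω) u d Z K M J <
        y / (x + y) * Phi a p u d Z K M J := mul_lt_mul_of_pos_left hc2 (div_pos hy0 hxy)
    have g3 : x / (x + y) * Phi a p u d Z K M J + y / (x + y) * Phi a p u d Z K M J =
        Phi a p u d Z K M J := by rw [← add_mul, w12, one_mul]
    linarith

/-- A law for which the coarse line and the finer direction determine the finer line. -/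
lemma derand (hINT : INTStmt) {a : ℝ} (ha : 0 ≤ a) (u d : Ω → Fin m → ℝ) (Z : Ω → ζ)
    (K M J : ℕ) : ∀ (n : ℕ) (p : Ω → ℝ), IsLaw p →
    (open Classical in (univ.filter (fun ω => 0 < p ω)).card) ≤ n →
    ∃ p' : Ω → ℝ, IsLaw p' ∧ Phi a p u d Z K M J ≤ Phi a p' u d Z K M J ∧
      ∀ r < M, Det p' (AA u d Z K r) (bb u d Z K (r + 1)) := by
  classical
  intro n
  induction n with
  | zero =>
    intro p hp hn
    refine ⟨p, hp, le_rfl, fun r _ ω ω' h => ?_⟩
    have h1 : ω ∈ univ.filter (fun ω => 0 < p ω) := by simp [h]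
    rw [Finset.card_eq_zero.mp (Nat.le_zero.mp hn)] at h1
    simp at h1
  | succ n ih =>
    intro p hp hn
    by_cases hgood : ∀ r < M, Det p (AA u d Z K r) (bb u d Z K (r + 1))
    · exact ⟨p, hp, le_rfl, hgood⟩
    · unfold Det at hgood
      push Not at hgood
      obtain ⟨r, _, ω₁, ω₂, h₁, h₂, hA, hB⟩ := hgood
      obtain ⟨q, hq, hsub, ⟨ω, hω1, hω2⟩, hPhi⟩ := move hINT ha hp u d Z K M J r h₁ h₂ hA hB
      have hlt : (univ.filter (fun ω => 0 < q ω)).card < (univ.filter (fun ω => 0 < p ω)).card := by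
        refine Finset.card_lt_card (Finset.ssubset_iff_subset_ne.mpr ⟨?_, ?_⟩)
        · intro x hx
          simp only [Finset.mem_filter, Finset.mem_univ, true_and] at hx ⊢
          exact hsub x hx
        · intro e
          have : ω ∈ univ.filter (fun ω => 0 < q ω) := by
            rw [e]
            simp [hω1]
          simp only [Finset.mem_filter, Finset.mem_univ, true_and] at this
          exact hω2 this
      obtain ⟨p', hp', h1, h2⟩ := ih q hq (by omega)
      exact ⟨p', hp', hPhi.trans h1, h2⟩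

omit [Fintype Ω] in
/-- The direction and the initial data determine the coarse line. -/
lemma det_line {u d : Ω → Fin m → ℝ} {Z : Ω → ζ} {K M : ℕ} {p : Ω → ℝ}
    (h : ∀ r < M, Det p (AA u d Z K r) (bb u d Z K (r + 1))) :
    ∀ r ≤ M, Det p (fun ω => (Fl d (r * K) ω, bb u d Z K 0 ω)) (bb u d Z K r) := by
  intro r
  induction r with
  | zero =>
    intro _ ω ω' _ _ e
    exact (Prod.ext_iff.mp e).2
  | succ r ih =>
    intro hr ω ω' a b e
    have e1 := Prod.ext_iff.mp e
    have e2 : Fl d (r * K) ω = Fl d (r * K) ω' := by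
      have := e1.1
      unfold Fl at this ⊢
      exact RED.fl_nested (Nat.mul_le_mul_right K (Nat.le_succ r)) this
    have e3 := ih (by omega) ω ω' a b (Prod.ext e2 e1.2)
    refine h r (by omega) ω ω' a b ?_
    unfold bb at e3
    unfold AA
    simp only [Prod.mk.injEq] at e3 ⊢
    exact ⟨⟨e3.1, e1.1⟩, e3.2⟩

/-- Stickiness. -/
lemma sticky_of_det {u d : Ω → Fin m → ℝ} {Z : Ω → ζ} {K M : ℕ} {p : Ω → ℝ} (hp : IsLaw p)
    (hK : 1 ≤ K) (h : ∀ r < M, Det p (AA u d Z K r) (bb u d Z K (r + 1))) {ε : ℝ}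
    (hε : m * (K * Real.log 2) + cc m ≤ ε * (M * K : ℕ)) :
    Sticky p u d (bb u d Z K 0) ε (M * K) := by
  intro j hj
  have hdiv : K * (j / K) + j % K = j := Nat.div_add_mod j K
  have hmod : j % K < K := Nat.mod_lt j hK
  have hr : j / K ≤ M := Nat.div_le_of_le_mul (by rw [mul_comm]; exact hj)
  have hj' : j = j / K * K + j % K := by
    rw [mul_comm (j / K) K]
    exact hdiv.symm
  have h0 := rfn_thm m Ω _ p u (fun ω => (Fl d j ω, bb u d Z K 0 ω)) hp (j % K) (j / K * K)
  rw [← hj'] at h0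
  have h1 : CH p (Fl u (j / K * K)) (fun ω => (Fl d j ω, bb u d Z K 0 ω)) = 0 := by
    refine CH_eq_zero hp.nonneg ?_
    intro ω ω' a b e
    have e1 := Prod.ext_iff.mp e
    have e2 : Fl d (j / K * K) ω = Fl d (j / K * K) ω' := by
      have := e1.1
      unfold Fl at this ⊢
      exact RED.fl_nested (Nat.div_mul_le_self j K) this
    have e3 := det_line h (j / K) hr ω ω' a b (Prod.ext e2 e1.2)
    unfold bb Ln at e3
    simp only [Prod.mk.injEq] at e3
    exact e3.1.1
  have h2 : (m : ℝ) * ((j % K : ℕ) * Real.log 2) ≤ m * (K * Real.log 2) := by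
    have : ((j % K : ℕ) : ℝ) ≤ K := by exact_mod_cast hmod.le
    have hl : 0 ≤ Real.log 2 := Real.log_nonneg (by norm_num)
    have hm : (0 : ℝ) ≤ m := Nat.cast_nonneg m
    exact mul_le_mul_of_nonneg_left (mul_le_mul_of_nonneg_right this hl) hm
  linarith

/-- The local direction entropies are at most the entropy of the direction. -/
lemma sum_le_dir {u d : Ω → Fin m → ℝ} {Z : Ω → ζ} {K : ℕ} {p : Ω → ℝ} (hp : IsLaw p) :
    ∀ n : ℕ, ∑ r ∈ Finset.range n, CH p (Fl d ((r + 1) * K)) (bb u d Z K r) ≤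
      CH p (Fl d (n * K)) (bb u d Z K 0) := by
  intro n
  induction n with
  | zero => simpa using CH_nonneg hp.nonneg _ _
  | succ n ih =>
    rw [Finset.sum_range_succ]
    have h1 := CH_chain hp.nonneg (Fl d ((n + 1) * K)) (Fl d (n * K)) (bb u d Z K 0)
    have h2 : CH p (fun ω => (Fl d ((n + 1) * K) ω, Fl d (n * K) ω)) (bb u d Z K 0) ≤
        CH p (Fl d ((n + 1) * K)) (bb u d Z K 0) := by
      refine CH_mono_left hp.nonneg ?_
      intro ω ω' _ _ e
      have e1 := (Prod.ext_iff.mp e).1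
      refine Prod.ext e1 ?_
      dsimp only at e1 ⊢
      unfold Fl at e1 ⊢
      exact RED.fl_nested (Nat.mul_le_mul_right K (Nat.le_succ n)) e1
    have h3 : CH p (Fl d ((n + 1) * K)) (bb u d Z K n) ≤
        CH p (Fl d ((n + 1) * K)) (fun ω => (Fl d (n * K) ω, bb u d Z K 0 ω)) := by
      refine CH_mono_cond hp.nonneg ?_
      intro ω ω' _ _ e
      refine Prod.ext ?_ (bb_nested u d Z K (Nat.zero_le n) e)
      unfold bb Ln at e
      simp only [Prod.mk.injEq] at e
      exact e.1.2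
    linarith

end Lines

end EP

/-- **The entropy theorem for all families.** -/
theorem ep_thm (hINT : INTStmt) (hE : EStmt) : EPStmt := by
  intro m a R ha hR
  obtain ⟨ε, hε, J₀, hG⟩ := hE m a (R / 2) ha (half_pos hR)
  obtain ⟨M₀, hM₀⟩ := exists_nat_ge (2 * (m * Real.log 2) / ε)
  obtain ⟨K₁, hK₁⟩ := exists_nat_ge (2 * cc m / ε)
  refine ⟨M₀ + 1, by omega, J₀ + K₁ + 1, ?_⟩
  intro K hK Ω ζ _ p u d Z hp hd
  set M := M₀ + 1 with hM
  have hK1 : 1 ≤ K := by omega
  obtain ⟨p', hp', hPhi, hdet⟩ := EP.derand hINT (by linarith : (0 : ℝ) ≤ a) u d Z K M (M * K) _ p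
    hp le_rfl
  have hMK : J₀ ≤ M * K := by
    have : 1 * K ≤ M * K := Nat.mul_le_mul_right K (by omega)
    omega
  have hcast : ((M * K : ℕ) : ℝ) = M * K := by push_cast; ring
  have hMr : 2 * (m * Real.log 2) ≤ ε * M := by
    rw [div_le_iff₀ hε] at hM₀
    have : (M : ℝ) = M₀ + 1 := by rw [hM]; push_cast; ring
    rw [this]
    nlinarith
  have hKr : 2 * cc m ≤ ε * K := by
    rw [div_le_iff₀ hε] at hK₁
    have : (K₁ : ℝ) ≤ K := by exact_mod_cast (by omega : K₁ ≤ K)
    nlinarith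
  have hK0 : (0 : ℝ) ≤ K := Nat.cast_nonneg K
  have hM1 : (1 : ℝ) ≤ M := by exact_mod_cast (by omega : 1 ≤ M)
  have hst : Sticky p' u d (bb u d Z K 0) ε (M * K) := by
    refine EP.sticky_of_det hp' hK1 hdet ?_
    rw [hcast]
    have h1 := mul_le_mul_of_nonneg_right hMr hK0
    have h2 : ε * K ≤ ε * M * K := by
      have := mul_le_mul_of_nonneg_left hM1 (mul_nonneg hε.le hK0)
      nlinarith
    nlinarith
  have hgood := hG (M * K) hMK Ω _ p' u d (bb u d Z K 0) hp' hd hst
  have hX : Xav p' u d (bb u d Z K 0) (M * K) ≤ Xav p' u d Z (M * K) := by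
    unfold Xav
    refine intervalIntegral.integral_mono (by norm_num) ((hINT m Ω _ p' u d hp').1 _ _ 0 1)
      ((hINT m Ω _ p' u d hp').1 _ _ 0 1) ?_
    intro t
    refine CH_mono_cond hp'.nonneg ?_
    intro ω ω' _ _ e
    exact (Prod.ext_iff.mp e).2
  have hsum := EP.sum_le_dir (u := u) (d := d) (Z := Z) (K := K) hp' M
  unfold EP.Phi at hPhi
  rw [hcast] at hgood
  have ha0 : 0 ≤ a := by linarith
  have h3 := mul_le_mul_of_nonneg_left hX ha0
  have h4 : R / 2 * (M * K) ≤ R * (M * K) := by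
    have : 0 ≤ (M : ℝ) * K := mul_nonneg (by linarith) hK0
    nlinarith
  linarith

/-- The entropy theorem for all families. -/
theorem ep_all : EPStmt := ep_thm int_all e_all

end Pool.STK
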